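import Mathlib

namespace Pool.Agent.H.MP_939d63_gt

abbrev OI := ℝ ≃o ℝ

noncomputable def tauF (s : ℝ) : ℝ := max s (min (2 * s) (min (s + 1 / 4) (s / 2 + 1 / 2)))

noncomputable def tauI (t : ℝ) : ℝ := min t (max (t / 2) (max (t - 1 / 4) (2 * t - 1)))

theorem tauF_mono : StrictMono tauF := fun _ _ h =>
  max_lt_max h (min_lt_min (by linarith) (min_lt_min (by linarith) (by linarith)))

theorem tauF_a {t : ℝ} (h : t ≤ 0 ∨ 1 ≤ t) : tauF t = t := by
  unfold tauF
  rcases h with h | h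
  · exact max_eq_left ((min_le_left _ _).trans (by linarith))
  · exact max_eq_left ((min_le_right _ _).trans ((min_le_right _ _).trans (by linarith)))

theorem tauF_b {t : ℝ} (h : 0 ≤ t) (h' : t ≤ 1 / 4) : tauF t = 2 * t := by
  unfold tauF
  rw [min_eq_left (le_min (by linarith) (by linarith)), max_eq_right (by linarith)]

theorem tauF_c {t : ℝ} (h : 1 / 4 ≤ t) (h' : t ≤ 1 / 2) : tauF t = t + 1 / 4 := by
  unfold tauF
  rw [min_eq_left (a := t + 1 / 4) (by linarith), min_eq_right (by linarith),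
    max_eq_right (by linarith)]

theorem tauF_d {t : ℝ} (h : 1 / 2 ≤ t) (h' : t ≤ 1) : tauF t = t / 2 + 1 / 2 := by
  unfold tauF
  rw [min_eq_right (a := t + 1 / 4) (by linarith), min_eq_right (by linarith),
    max_eq_right (by linarith)]

theorem tauF_surj : Function.Surjective tauF := by
  intro t
  rcases le_total t 0 with h | h
  · exact ⟨t, tauF_a (Or.inl h)⟩
  rcases le_total t (1 / 2) with h1 | h1
  · exact ⟨t / 2, by rw [tauF_b (by linarith) (by linarith)]; ring⟩
  rcases le_total t (3 / 4) with h2 | h2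
  · exact ⟨t - 1 / 4, by rw [tauF_c (by linarith) (by linarith)]; ring⟩
  rcases le_total t 1 with h3 | h3
  · exact ⟨2 * t - 1, by rw [tauF_d (by linarith) (by linarith)]; ring⟩
  · exact ⟨t, tauF_a (Or.inr h3)⟩

noncomputable def tau : OI := StrictMono.orderIsoOfSurjective tauF tauF_mono tauF_surj

theorem tau_apply (t : ℝ) : tau t = tauF t := rfl

noncomputable def xs (n : ℤ) : ℝ := if 0 ≤ n then 1 - (2 : ℝ) ^ (-n - 1) else (2 : ℝ) ^ (n - 1)

theorem xs_zero : xs 0 = 1 / 2 := by norm_num [xs]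
theorem xs_one : xs 1 = 3 / 4 := by norm_num [xs]
theorem xs_neg_one : xs (-1) = 1 / 4 := by norm_num [xs]

theorem xs_succ_pos {n : ℤ} (h : 0 ≤ n) : xs (n + 1) = xs n / 2 + 1 / 2 := by
  unfold xs
  rw [if_pos h, if_pos (by omega), show -(n + 1) - 1 = (-n - 1) - 1 by ring,
    zpow_sub_one₀ (by norm_num)]
  ring

theorem xs_succ_neg {n : ℤ} (h : n ≤ -1) : xs (n + 1) = 2 * xs n := by
  rcases h.eq_or_lt with rfl | h
  · norm_num [xs]
  unfold xs
  rw [if_neg (by omega), if_neg (by omega), show n + 1 - 1 = (n - 1) + 1 by ring,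
    zpow_add_one₀ (by norm_num)]
  ring

theorem xs_lt_one (n : ℤ) : xs n < 1 := by
  unfold xs
  split_ifs with h
  · have : (0 : ℝ) < 2 ^ (-n - 1) := by positivity
    linarith
  · exact zpow_lt_one_of_neg₀ (by norm_num) (by omega)

theorem xs_pos (n : ℤ) : 0 < xs n := by
  unfold xs
  split_ifs with h
  · have : (2 : ℝ) ^ (-n - 1) < 1 := zpow_lt_one_of_neg₀ (by norm_num) (by omega)
    linarith
  · positivity

theorem xs_mono : StrictMono xs := strictMono_int_of_lt_succ fun n => by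
  rcases le_or_gt 0 n with h | h
  · rw [xs_succ_pos h]; linarith [xs_lt_one n]
  · rw [xs_succ_neg (by omega)]; linarith [xs_pos n]

theorem xs_gap (n : ℤ) : xs (n + 1) - xs n ≤ 1 / 2 := by
  rcases le_or_gt 0 n with h | h
  · have := xs_mono.monotone h
    rw [xs_zero] at this
    linarith [xs_lt_one (n + 1)]
  · have := xs_mono.monotone (show n + 1 ≤ 0 by omega)
    rw [xs_zero] at this
    linarith [xs_pos n]

theorem xs_small {e : ℝ} (he : 0 < e) : ∃ n, xs n < e := by
  obtain ⟨k, hk⟩ := exists_pow_lt_of_lt_one he (show (1 / 2 : ℝ) < 1 by norm_num)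
  refine ⟨-(k + 1 : ℕ), ?_⟩
  unfold xs
  rw [if_neg (by omega)]
  refine lt_of_le_of_lt ?_ hk
  rw [one_div, inv_pow, ← zpow_natCast, ← zpow_neg]
  exact zpow_le_zpow_right₀ (by norm_num) (by omega)

theorem xs_large {e : ℝ} (he : 0 < e) : ∃ n, 1 - e < xs n := by
  obtain ⟨k, hk⟩ := exists_pow_lt_of_lt_one he (show (1 / 2 : ℝ) < 1 by norm_num)
  refine ⟨k, ?_⟩
  unfold xs
  rw [if_pos (by omega)]
  have : (2 : ℝ) ^ (-(k : ℤ) - 1) ≤ (1 / 2) ^ k := by
    rw [one_div, inv_pow, ← zpow_natCast, ← zpow_neg]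
    exact zpow_le_zpow_right₀ (by norm_num) (by omega)
  linarith

theorem xs_rat (n : ℤ) : ∃ q : ℚ, xs n = q := by
  unfold xs
  split_ifs
  · exact ⟨1 - 2 ^ (-n - 1), by push_cast; rfl⟩
  · exact ⟨2 ^ (n - 1), by push_cast; rfl⟩

noncomputable def S (n : ℤ) (s : ℝ) : ℝ := xs n + (xs (n + 1) - xs n) * s

theorem gap_pos (n : ℤ) : 0 < xs (n + 1) - xs n := sub_pos.2 (xs_mono (by omega))

theorem S_mono (n : ℤ) : StrictMono (S n) := fun a b h => by
  unfold S
  nlinarith [gap_pos n]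

theorem S_zero (n : ℤ) : S n 0 = xs n := by simp [S]
theorem S_one (n : ℤ) : S n 1 = xs (n + 1) := by simp [S]

theorem S_mem (n : ℤ) {s : ℝ} (h0 : 0 ≤ s) (h1 : s ≤ 1) : xs n ≤ S n s ∧ S n s ≤ xs (n + 1) :=
  ⟨S_zero n ▸ (S_mono n).monotone h0, S_one n ▸ (S_mono n).monotone h1⟩

theorem tau_S (n : ℤ) {s : ℝ} (h0 : 0 ≤ s) (h1 : s ≤ 1) : tau (S n s) = S (n + 1) s := by
  obtain ⟨a1, a2⟩ := S_mem n h0 h1
  rw [tau_apply]
  rcases lt_trichotomy n (-1) with h | rfl | h
  · have := xs_mono.monotone (show n + 1 ≤ -1 by omega)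
    rw [xs_neg_one] at this
    rw [tauF_b (by linarith [xs_pos n]) (by linarith)]
    unfold S
    rw [xs_succ_neg (n := n + 1) (by omega), xs_succ_neg (n := n) (by omega)]
    ring
  · norm_num at a2
    rw [xs_neg_one] at a1
    rw [xs_zero] at a2
    rw [tauF_c a1 a2]
    unfold S
    norm_num [xs_neg_one, xs_zero, xs_one]
    ring
  · have := xs_mono.monotone (show 0 ≤ n by omega)
    rw [xs_zero] at this
    rw [tauF_d (by linarith) (by linarith [xs_lt_one (n + 1)])]
    unfold S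
    rw [xs_succ_pos (n := n + 1) (by omega), xs_succ_pos (n := n) (by omega)]
    ring

theorem tau_xs (n : ℤ) : tau (xs n) = xs (n + 1) := by
  have := tau_S n le_rfl zero_le_one
  rwa [S_zero, S_zero] at this

inductive L0 : ℝ → ℝ → Prop
  | top : L0 0 1
  | fan (n : ℤ) : L0 (xs n) 1
  | sub (n : ℤ) {u v : ℝ} : L0 u v → L0 (S n u) (S n v)

theorem L0.bd {u v : ℝ} (h : L0 u v) : 0 ≤ u ∧ u < v ∧ v ≤ 1 := by
  induction h with
  | top => norm_num
  | fan n => exact ⟨(xs_pos n).le, xs_lt_one n, le_rfl⟩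
  | sub n _ ih =>
    obtain ⟨a, b, c⟩ := ih
    exact ⟨(xs_pos n).le.trans (S_mem n a (by linarith)).1, S_mono n b,
      (S_mem n (by linarith) c).2.trans (xs_lt_one _).le⟩

theorem L0.sbd (n : ℤ) {u v : ℝ} (h : L0 u v) : xs n ≤ S n u ∧ S n v ≤ xs (n + 1) := by
  obtain ⟨a, b, c⟩ := h.bd
  exact ⟨(S_mem n a (by linarith)).1, (S_mem n (by linarith) c).2⟩

theorem L0.rat {u v : ℝ} (h : L0 u v) : ∃ p q : ℚ, u = p ∧ v = q := by
  induction h with
  | top => exact ⟨0, 1, by simp, by simp⟩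
  | fan n => obtain ⟨q, hq⟩ := xs_rat n; exact ⟨q, 1, hq, by simp⟩
  | sub n _ ih =>
    obtain ⟨p, q, rfl, rfl⟩ := ih
    obtain ⟨a, ha⟩ := xs_rat n
    obtain ⟨b, hb⟩ := xs_rat (n + 1)
    exact ⟨a + (b - a) * p, a + (b - a) * q, by simp [S, ha, hb], by simp [S, ha, hb]⟩

theorem L0.nc {u v : ℝ} (h : L0 u v) : ∀ {u' v' : ℝ}, L0 u' v' → u < u' → u' < v → v < v' → False := by
  induction h with
  | top => intro u' v' h' _ _ c; linarith [h'.bd]
  | fan n => intro u' v' h' _ _ c; linarith [h'.bd]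
  | sub n h ih =>
    intro u' v' h' a b c
    obtain ⟨s1, s2⟩ := h.sbd n
    cases h' with
    | top => linarith [xs_pos n]
    | fan m =>
      have := xs_mono.lt_iff_lt.1 (s1.trans_lt a)
      have := xs_mono.lt_iff_lt.1 (b.trans_le s2)
      omega
    | sub m h' =>
      obtain ⟨t1, t2⟩ := h'.sbd m
      have e1 := xs_mono.lt_iff_lt.1 (t1.trans_lt (b.trans_le s2))
      have e2 := xs_mono.lt_iff_lt.1 (s1.trans_lt (a.trans (b.trans (c.trans_le t2))))
      obtain rfl : m = n := by omega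
      exact ih h' ((S_mono _).lt_iff_lt.1 a) ((S_mono _).lt_iff_lt.1 b) ((S_mono _).lt_iff_lt.1 c)

def B (c x u v : ℝ) : ℝ := (u - x) * (v - x) + c

def Cov (R : ℝ → ℝ → Prop) (c x : ℝ) : Prop :=
  (∃ u v, R u v ∧ B c x u v = 0) ∨ ∃ p q r, p < q ∧ q < r ∧ R p q ∧ R q r ∧ R p r ∧
    B c x p r < 0 ∧ 0 < B c x p q ∧ 0 < B c x q r

theorem cov0 : ∀ (k : ℕ) (c x : ℝ), (1 / 2) ^ k < c → B c x 0 1 < 0 → Cov L0 c x := by
  intro k
  induction k with
  | zero => intro c x h1 h2; unfold B at h2; nlinarith [sq_nonneg (x - 1 / 2)]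
  | succ k ih =>
    intro c x h1 h2
    have hc : 0 < c := lt_trans (by positivity) h1
    by_cases hz : ∃ u v, L0 u v ∧ B c x u v = 0
    · exact Or.inl hz
    push Not at hz
    have hx : x < 1 := by unfold B at h2; nlinarith
    have hx' : 0 < 1 - x := by linarith
    obtain ⟨n1, hn1⟩ := xs_large hx'
    obtain ⟨n0, hn0⟩ := xs_small (show 0 < -B c x 0 1 / (1 - x) from div_pos (by linarith) hx')
    obtain ⟨n, hn, hn'⟩ := Int.exists_greatest_of_bdd (P := fun n => B c x (xs n) 1 < 0)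
      ⟨n1, fun m hm => by
        by_contra hh
        have := xs_mono (not_le.1 hh)
        unfold B at hm
        nlinarith⟩
      ⟨n0, by
        rw [lt_div_iff₀ hx'] at hn0
        unfold B at hn0 ⊢
        nlinarith⟩
    have b1 : 0 < B c x (xs (n + 1)) 1 := by
      rcases lt_trichotomy (B c x (xs (n + 1)) 1) 0 with h | h | h
      · have := hn' _ h; omega
      · exact absurd h (hz _ _ (L0.fan _))
      · exact h
    have l1 : L0 (xs n) (xs (n + 1)) := by
      have := L0.top.sub n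
      rwa [S_zero, S_one] at this
    rcases lt_trichotomy (B c x (xs n) (xs (n + 1))) 0 with h | h | h
    · have d := gap_pos n
      have key : ∀ u v, B c x (S n u) (S n v) = (xs (n + 1) - xs n) ^ 2 *
          B (c / (xs (n + 1) - xs n) ^ 2) ((x - xs n) / (xs (n + 1) - xs n)) u v := by
        intro u v
        unfold B S
        field_simp
        ring
      have d2 : 0 < (xs (n + 1) - xs n) ^ 2 := by positivity
      have := ih (c / (xs (n + 1) - xs n) ^ 2) ((x - xs n) / (xs (n + 1) - xs n)) (by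
        rw [lt_div_iff₀ d2]
        have := xs_gap n
        have e : (xs (n + 1) - xs n) ^ 2 ≤ 1 / 2 := by nlinarith
        have p : (0 : ℝ) < (1 / 2) ^ k := by positivity
        rw [pow_succ] at h1
        nlinarith) (by
        have := key 0 1
        rw [S_zero, S_one] at this
        rw [this] at h
        exact neg_of_mul_neg_right h d2.le)
      rcases this with ⟨u, v, h1, h2⟩ | ⟨p, q, r, a1, a2, a3, a4, a5, a6, a7, a8⟩
      · exact Or.inl ⟨_, _, h1.sub n, by rw [key, h2, mul_zero]⟩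
      · refine Or.inr ⟨_, _, _, S_mono n a1, S_mono n a2, a3.sub n, a4.sub n, a5.sub n, ?_, ?_, ?_⟩
        · rw [key]; exact mul_neg_of_pos_of_neg d2 a6
        · rw [key]; exact mul_pos d2 a7
        · rw [key]; exact mul_pos d2 a8
    · exact absurd h (hz _ _ l1)
    · exact Or.inr ⟨_, _, _, xs_mono (by omega), xs_lt_one _, l1, L0.fan _, L0.fan _, hn, h, b1⟩

inductive L : ℝ → ℝ → Prop
  | blk (k : ℤ) {u v : ℝ} : L0 u v → L (k + u) (k + v)
  | o1 (n : ℕ) : L (-(n + 1)) (n + 1)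
  | o2 (n : ℕ) : L (-n) (n + 1)

theorem L.lt {u v : ℝ} (h : L u v) : u < v := by
  cases h with
  | blk k h => linarith [h.bd]
  | o1 n => have : (0 : ℝ) ≤ n := n.cast_nonneg; linarith
  | o2 n => have : (0 : ℝ) ≤ n := n.cast_nonneg; linarith

theorem L.esc {u v : ℝ} (h : L u v) : v - u ≤ 1 ∨ |u + v| ≤ 1 := by
  cases h with
  | blk k h => left; linarith [h.bd]
  | o1 n => right; simp
  | o2 n => right; simp

theorem L.rat {u v : ℝ} (h : L u v) : ∃ p q : ℚ, u = p ∧ v = q := by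
  cases h with
  | blk k h => obtain ⟨p, q, rfl, rfl⟩ := h.rat; exact ⟨k + p, k + q, by simp, by simp⟩
  | o1 n => exact ⟨-(n + 1), n + 1, by simp, by simp⟩
  | o2 n => exact ⟨-n, n + 1, by simp, by simp⟩

theorem L.cases' {u v : ℝ} (h : L u v) : (∃ (k : ℤ) (a b : ℝ), L0 a b ∧ u = k + a ∧ v = k + b) ∨
    ∃ i j : ℤ, u = i ∧ v = j ∧ 0 ≤ i + j ∧ i + j ≤ 1 := by
  cases h with
  | blk k h => exact Or.inl ⟨k, _, _, h, rfl, rfl⟩
  | o1 n => exact Or.inr ⟨-(n + 1), n + 1, by simp, by simp, by omega, by omega⟩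
  | o2 n => exact Or.inr ⟨-n, n + 1, by simp, by simp, by omega, by omega⟩

theorem L.nc {u v u' v' : ℝ} (h : L u v) (h' : L u' v') (a : u < u') (b : u' < v) (c : v < v') :
    False := by
  have c1 := h.cases'
  have c2 := h'.cases'
  clear h h'
  rcases c1 with ⟨k, p, q, h, rfl, rfl⟩ | ⟨i, j, rfl, rfl, h1, h2⟩ <;>
    rcases c2 with ⟨k', p', q', h', rfl, rfl⟩ | ⟨i', j', rfl, rfl, h1', h2'⟩
  · have b1 := h.bd
    have b2 := h'.bd
    have e1 : (k' : ℝ) < k + 1 := by linarith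
    have e2 : (k : ℝ) < k' + 1 := by linarith
    have e1 : k' < k + 1 := by exact_mod_cast e1
    have e2 : k < k' + 1 := by exact_mod_cast e2
    obtain rfl : k' = k := by omega
    exact h.nc h' (by linarith) (by linarith) (by linarith)
  · have b1 := h.bd
    have e1 : (i' : ℝ) < k + 1 := by linarith
    have e2 : (k : ℝ) < i' := by linarith
    have e1 : i' < k + 1 := by exact_mod_cast e1
    have e2 : k < i' := by exact_mod_cast e2
    omega
  · have b1 := h'.bd
    have e1 : (j : ℝ) < k' + 1 := by linarith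
    have e2 : (k' : ℝ) < j := by linarith
    have e1 : j < k' + 1 := by exact_mod_cast e1
    have e2 : k' < j := by exact_mod_cast e2
    omega
  · have e1 : i < i' := by exact_mod_cast a
    have e2 : j < j' := by exact_mod_cast c
    omega

theorem covL {c : ℝ} (hc : 0 < c) (x : ℝ) : Cov L c x := by
  classical
  by_cases hz : ∃ u v, L u v ∧ B c x u v = 0
  · exact Or.inl hz
  push Not at hz
  have blk : ∀ k : ℤ, B c x k (k + 1) < 0 → Cov L c x := by
    intro k hk
    obtain ⟨j, hj⟩ := exists_pow_lt_of_lt_one hc (show (1 / 2 : ℝ) < 1 by norm_num)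
    have key : ∀ u v, B c x (k + u) (k + v) = B c (x - k) u v := fun u v => by unfold B; ring
    rcases cov0 j c (x - k) hj (by rw [← key, add_zero]; exact hk) with
      ⟨u, v, h1, h2⟩ | ⟨p, q, r, a1, a2, a3, a4, a5, a6, a7, a8⟩
    · exact Or.inl ⟨_, _, L.blk k h1, by rw [key, h2]⟩
    · exact Or.inr ⟨_, _, _, by linarith, by linarith, L.blk k a3, L.blk k a4, L.blk k a5,
        by rwa [key], by rwa [key], by rwa [key]⟩
  have ex : ∃ n : ℕ, B c x (-n) (n + 1) < 0 := by
    obtain ⟨n, hn⟩ := exists_nat_gt (|x| + c + 1)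
    refine ⟨n, ?_⟩
    unfold B
    have := le_abs_self x
    have := neg_abs_le x
    nlinarith
  have h1 := Nat.find_spec ex
  have h2 := fun m => Nat.find_min ex (m := m)
  generalize Nat.find ex = n at h1 h2
  rcases n with _ | n
  · exact blk 0 (by simpa using h1)
  have h2 : 0 < B c x (-n) (n + 1) :=
    lt_of_le_of_ne (not_lt.1 (h2 n n.lt_succ_self)) (hz _ _ (L.o2 n)).symm
  have unit : ∀ k : ℤ, L k (k + 1) := fun k => by simpa using L.blk k L0.top
  have n0 : (0 : ℝ) ≤ n := n.cast_nonneg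
  push_cast at h1
  rcases lt_trichotomy (B c x (-(n + 1)) (n + 1)) 0 with h | h | h
  · have l := unit (-(n + 1))
    rcases lt_trichotomy (B c x (-(n + 1) : ℤ) ((-(n + 1) : ℤ) + 1)) 0 with h' | h' | h'
    · exact blk _ h'
    · exact absurd h' (hz _ _ l)
    · push_cast at l h'
      rw [show -((n : ℝ) + 1) + 1 = -n by ring] at l h'
      exact Or.inr ⟨_, _, _, by linarith, by linarith, l, L.o2 n, L.o1 n, h, h', h2⟩
  · exact absurd h (hz _ _ (L.o1 n))
  · have l := unit (n + 1)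
    rcases lt_trichotomy (B c x (n + 1 : ℤ) ((n + 1 : ℤ) + 1)) 0 with h' | h' | h'
    · exact blk _ h'
    · exact absurd h' (hz _ _ l)
    · have l2 := L.o2 (n + 1)
      push_cast at l h' l2
      exact Or.inr ⟨_, _, _, by linarith, by linarith, L.o1 n, l, l2, h1, h, h'⟩

def Good : Subgroup OI where
  carrier := {f | (∀ t, t ≤ 0 ∨ 1 ≤ t → f t = t) ∧ (∀ u v, L0 u v → L0 (f u) (f v)) ∧
    ∀ u v, L0 u v → L0 (f⁻¹ u) (f⁻¹ v)}
  one_mem' := ⟨fun _ _ => rfl, fun _ _ h => h, fun _ _ h => h⟩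
  mul_mem' := by
    rintro f g ⟨a1, a2, a3⟩ ⟨b1, b2, b3⟩
    refine ⟨fun t ht => ?_, fun u v h => a2 _ _ (b2 _ _ h), fun u v h => ?_⟩
    · rw [RelIso.mul_apply, b1 t ht, a1 t ht]
    · rw [mul_inv_rev]
      exact b3 _ _ (a3 _ _ h)
  inv_mem' := by
    rintro f ⟨a1, a2, a3⟩
    refine ⟨fun t ht => ?_, a3, by simpa using a2⟩
    conv_lhs => rw [← a1 t ht]
    exact RelIso.inv_apply_self f t

theorem tau_good : tau ∈ Good := by
  have fx : ∀ t, t ≤ 0 ∨ 1 ≤ t → tau t = t := fun t ht => tauF_a ht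
  have inv : ∀ s t, tau s = t → tau⁻¹ t = s := fun s t h => h ▸ RelIso.inv_apply_self tau s
  refine ⟨fx, fun u v h => ?_, fun u v h => ?_⟩
  · cases h with
    | top => rw [fx 0 (by simp), fx 1 (by simp)]; exact L0.top
    | fan n => rw [tau_xs, fx 1 (by simp)]; exact L0.fan _
    | sub n h =>
      obtain ⟨a, b, c⟩ := h.bd
      rw [tau_S n a (by linarith), tau_S n (by linarith) c]
      exact h.sub _
  · cases h with
    | top => rw [inv _ _ (fx 0 (by simp)), inv _ _ (fx 1 (by simp))]; exact L0.top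
    | fan n =>
      rw [inv (xs (n - 1)) _ (by rw [tau_xs]; simp), inv _ _ (fx 1 (by simp))]; exact L0.fan _
    | @sub n u v h =>
      obtain ⟨a, b, c⟩ := h.bd
      rw [inv (S (n - 1) u) _ (by rw [tau_S _ a (by linarith)]; simp),
        inv (S (n - 1) v) _ (by rw [tau_S _ (by linarith) c]; simp)]
      exact h.sub _

noncomputable def s0 : OI := StrictMono.orderIsoOfSurjective (S 0) (S_mono 0) fun t =>
  ⟨4 * t - 2, by norm_num [S, xs_zero, xs_one]; ring⟩

theorem s0_apply (t : ℝ) : s0 t = S 0 t := rfl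

theorem s0_eq (t : ℝ) : s0 t = 1 / 2 + t / 4 := by
  rw [s0_apply]; norm_num [S, xs_zero, xs_one]; ring

theorem s0_inv (t : ℝ) : s0⁻¹ t = 4 * t - 2 := by
  have : t = s0 (4 * t - 2) := by rw [s0_eq]; ring
  conv_lhs => rw [this]
  exact RelIso.inv_apply_self s0 _

noncomputable def cj (f : OI) : OI := s0 * f * s0⁻¹

theorem cj_fix {f : OI} (hf : ∀ t, t ≤ 0 ∨ 1 ≤ t → f t = t) (t : ℝ) (ht : t ≤ xs 0 ∨ xs 1 ≤ t) :
    cj f t = t := by
  rw [xs_zero, xs_one] at ht
  change s0 (f (s0⁻¹ t)) = t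
  rw [hf _ (by rw [s0_inv]; rcases ht with h | h; exacts [Or.inl (by linarith), Or.inr (by linarith)])]
  exact RelIso.apply_inv_self s0 t

theorem cj_pres {f : OI} (hf : f ∈ Good) (u v : ℝ) (h : L0 u v) : L0 (cj f u) (cj f v) := by
  have fx := cj_fix hf.1
  have f1 : cj f 1 = 1 := fx 1 (Or.inr (xs_lt_one _).le)
  cases h with
  | top => rw [fx 0 (Or.inl (xs_pos _).le), f1]; exact L0.top
  | fan n =>
    rw [f1, fx _ (by
      rcases le_or_gt n 0 with h | h
      exacts [Or.inl (xs_mono.monotone h), Or.inr (xs_mono.monotone (by omega))])]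
    exact L0.fan _
  | @sub n u v h =>
    obtain ⟨s1, s2⟩ := h.sbd n
    have s3 := (S_mono n h.bd.2.1).le
    rcases lt_trichotomy n 0 with hn | rfl | hn
    · have := xs_mono.monotone (show n + 1 ≤ 0 by omega)
      rw [fx _ (Or.inl (by linarith)), fx _ (Or.inl (by linarith))]
      exact h.sub _
    · have e : ∀ t, cj f (S 0 t) = S 0 (f t) := fun t => by
        change s0 (f (s0⁻¹ (s0 t))) = _
        rw [RelIso.inv_apply_self]
        rfl
      rw [e, e]
      exact (hf.2.1 _ _ h).sub 0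
    · have := xs_mono.monotone (show 1 ≤ n by omega)
      rw [fx _ (Or.inr (by linarith)), fx _ (Or.inr (by linarith))]
      exact h.sub _

theorem cj_good {f : OI} (hf : f ∈ Good) : cj f ∈ Good := by
  refine ⟨fun t ht => cj_fix hf.1 t ?_, cj_pres hf, ?_⟩
  · rcases ht with h | h
    exacts [Or.inl (h.trans (xs_pos _).le), Or.inr ((xs_lt_one _).le.trans h)]
  · have : (cj f)⁻¹ = cj f⁻¹ := by unfold cj; group
    rw [this]
    exact cj_pres (Good.inv_mem hf)

theorem good_L {f : OI} (hf : f ∈ Good) {u v : ℝ} (h : L u v) : L (f u) (f v) := by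
  have fi : ∀ k : ℤ, f k = k := fun k => hf.1 _ (by
    rcases le_or_gt k 0 with h | h
    · exact Or.inl (by exact_mod_cast h)
    · exact Or.inr (by exact_mod_cast h))
  cases h with
  | @blk k u v h =>
    obtain ⟨a, b, c⟩ := h.bd
    rcases lt_trichotomy k 0 with hk | rfl | hk
    · have : (k : ℝ) + 1 ≤ 0 := by exact_mod_cast hk
      rw [hf.1 _ (Or.inl (by linarith)), hf.1 _ (Or.inl (by linarith))]
      exact L.blk k h
    · simpa using L.blk 0 (by simpa using hf.2.1 _ _ h)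
    · have : (1 : ℝ) ≤ k := by exact_mod_cast hk
      rw [hf.1 _ (Or.inr (by linarith)), hf.1 _ (Or.inr (by linarith))]
      exact L.blk k h
  | o1 n =>
    have a := fi (-(n + 1))
    have b := fi (n + 1)
    push_cast at a b
    rw [a, b]
    exact L.o1 n
  | o2 n =>
    have a := fi (-n)
    have b := fi (n + 1)
    push_cast at a b
    rw [a, b]
    exact L.o2 n

theorem comm_of_supp {f g : OI} {m : ℝ} (hf : ∀ t, m ≤ t → f t = t) (hg : ∀ t, t ≤ m → g t = t) :
    f * g = g * f := by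
  ext t
  change f (g t) = g (f t)
  rcases le_total t m with h | h
  · rw [hg t h, hg]
    rw [← hf m le_rfl]
    exact f.monotone h
  · rw [hf t h, hf]
    rw [← hg m le_rfl]
    exact g.monotone h

theorem tau_pow_xs (N : ℕ) (n : ℤ) : (tau ^ N) (xs n) = xs (n + N) := by
  induction N with
  | zero => simp
  | succ N ih =>
    rw [pow_succ', RelIso.mul_apply, ih, tau_xs]
    push_cast
    rw [add_assoc]

theorem comm_shift {N : ℕ} (hN : 0 < N) :
    cj tau * (tau ^ N * cj (cj tau) * (tau ^ N)⁻¹) = (tau ^ N * cj (cj tau) * (tau ^ N)⁻¹) * cj tau := by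
  refine comm_of_supp (m := xs 1) (fun t ht => cj_fix tau_good.1 t (Or.inr ht)) fun t ht => ?_
  change (tau ^ N) (cj (cj tau) ((tau ^ N)⁻¹ t)) = t
  rw [cj_fix (cj_good tau_good).1, RelIso.apply_inv_self]
  left
  rw [← (tau ^ N).le_iff_le, RelIso.apply_inv_self, tau_pow_xs]
  exact ht.trans (xs_mono.monotone (by omega))

theorem not_comm : cj tau * cj (cj tau) ≠ cj (cj tau) * cj tau := by
  intro h
  have h2 : tau * cj tau = cj tau * tau := by
    have e : ∀ f g : OI, cj f * cj g = s0 * (f * g) * s0⁻¹ := fun f g => by unfold cj; group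
    rw [e, e] at h
    simpa using h
  have h3 : tau (cj tau (5 / 8)) = cj tau (tau (5 / 8)) := congrArg (fun f : OI => f (5 / 8)) h2
  have e1 : cj tau (5 / 8) = 11 / 16 := by
    change s0 (tau (s0⁻¹ _)) = _
    rw [s0_inv, tau_apply, tauF_d (by norm_num) (by norm_num), s0_eq]
    norm_num
  have e2 : tau (5 / 8) = 13 / 16 := by
    rw [tau_apply, tauF_d (by norm_num) (by norm_num)]
    norm_num
  rw [e1, e2, cj_fix tau_good.1 _ (Or.inr (by rw [xs_one]; norm_num)), tau_apply,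
    tauF_d (by norm_num) (by norm_num)] at h3
  norm_num at h3

def Lb : Set (ℝ × ℝ) := closure {p | L p.1 p.2}

theorem Lb_le {p : ℝ × ℝ} (h : p ∈ Lb) : p.1 ≤ p.2 :=
  closure_minimal (fun _ h => (L.lt h).le) (isClosed_le continuous_fst continuous_snd) h

theorem Lb_esc {p : ℝ × ℝ} (h : p ∈ Lb) : p.2 - p.1 ≤ 1 ∨ |p.1 + p.2| ≤ 1 :=
  closure_minimal (t := {p : ℝ × ℝ | p.2 - p.1 ≤ 1} ∪ {p | |p.1 + p.2| ≤ 1}) (fun _ h => L.esc h)
    ((isClosed_le (by fun_prop) continuous_const).union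
      (isClosed_le (by fun_prop) continuous_const)) h

theorem Lb_nc {p q : ℝ × ℝ} (h : p ∈ Lb) (h' : q ∈ Lb) : ¬ (p.1 < q.1 ∧ q.1 < p.2 ∧ p.2 < q.2) := by
  have c : IsClosed {w : (ℝ × ℝ) × (ℝ × ℝ) | ¬ (w.1.1 < w.2.1 ∧ w.2.1 < w.1.2 ∧ w.1.2 < w.2.2)} :=
    ((isOpen_lt continuous_fst.fst continuous_snd.fst).inter
      ((isOpen_lt continuous_snd.fst continuous_fst.snd).inter
      (isOpen_lt continuous_fst.snd continuous_snd.snd))).isClosed_compl
  have : (p, q) ∈ closure ({p : ℝ × ℝ | L p.1 p.2} ×ˢ {p : ℝ × ℝ | L p.1 p.2}) := by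
    rw [closure_prod_eq]; exact ⟨h, h'⟩
  have := c.closure_subset_iff.2 (fun w hw hh => L.nc hw.1 hw.2 hh.1 hh.2.1 hh.2.2) this
  exact this

theorem Lb_good {f : OI} (hf : f ∈ Good) {p : ℝ × ℝ} (h : p ∈ Lb) : (f p.1, f p.2) ∈ Lb :=
  map_mem_closure (f := fun p : ℝ × ℝ => (f p.1, f p.2))
    ((f.continuous.comp continuous_fst).prodMk (f.continuous.comp continuous_snd)) h
    fun _ h => good_L hf h

end Pool.Agent.H.MP_939d63_gt
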