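import Pool.Agent.H.MP_939d63_gt.A

namespace Pool.Agent.H.MP_939d63_gt

open Set Metric Topology Filter MeasureTheory

noncomputable def Pc (t : ℝ) : ℂ := ⟨(t ^ 2 - 1) / (t ^ 2 + 1), -2 * t / (t ^ 2 + 1)⟩

theorem norm_Pc (t : ℝ) : ‖Pc t‖ = 1 := by
  have : Complex.normSq (Pc t) = 1 := by
    simp only [Pc, Complex.normSq_mk]
    field_simp
    ring
  rw [Complex.norm_def, this, Real.sqrt_one]

noncomputable def P (t : ℝ) : Circle := ⟨Pc t, mem_sphere_zero_iff_norm.2 (norm_Pc t)⟩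

theorem coe_P (t : ℝ) : (P t : ℂ) = Pc t := rfl

noncomputable def Q (z : Circle) : ℝ := -(z : ℂ).im / (1 - (z : ℂ).re)

theorem re_lt (t : ℝ) : 1 - (Pc t).re = 2 / (t ^ 2 + 1) := by
  simp only [Pc]
  field_simp
  ring

theorem Q_P (t : ℝ) : Q (P t) = t := by
  unfold Q
  rw [coe_P, re_lt]
  simp only [Pc]
  field_simp

theorem cont_P : Continuous P := by
  refine Continuous.subtype_mk ?_ _
  have h : ∀ t : ℝ, t ^ 2 + 1 ≠ 0 := fun t => by positivity
  have e : Pc = fun t : ℝ => (((t ^ 2 - 1) / (t ^ 2 + 1) : ℝ) : ℂ) +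
      ((-2 * t / (t ^ 2 + 1) : ℝ) : ℂ) * Complex.I := by
    funext t
    apply Complex.ext <;> simp only [Pc, Complex.add_re, Complex.add_im, Complex.mul_re,
      Complex.mul_im, Complex.ofReal_re, Complex.ofReal_im, Complex.I_re, Complex.I_im] <;> ring
  rw [e]
  refine (Complex.continuous_ofReal.comp ?_).add
    ((Complex.continuous_ofReal.comp ?_).mul continuous_const)
  · exact Continuous.div (by fun_prop) (by fun_prop) h
  · exact Continuous.div (by fun_prop) (by fun_prop) h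

theorem contAt_Q (t : ℝ) : ContinuousAt Q (P t) := by
  refine ContinuousAt.div (by fun_prop) (by fun_prop) ?_
  rw [coe_P, re_lt]
  positivity

theorem emb_P : IsEmbedding P := by
  refine ⟨isInducing_iff_nhds.2 fun x => le_antisymm (cont_P.tendsto x).le_comap ?_,
    Function.LeftInverse.injective Q_P⟩
  have : Tendsto (Q ∘ P) (comap P (𝓝 (P x))) (𝓝 (Q (P x))) := (contAt_Q x).tendsto.comp tendsto_comap
  rwa [show Q ∘ P = id from funext Q_P, Q_P] at this

theorem range_P : range P = {1}ᶜ := by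
  ext z
  constructor
  · rintro ⟨t, rfl⟩ h
    have := re_lt t
    rw [← coe_P, mem_singleton_iff.1 h] at this
    have p : (0 : ℝ) < 2 / (t ^ 2 + 1) := by positivity
    rw [← this] at p
    simp at p
  · intro h
    have n : (z : ℂ).re * (z : ℂ).re + (z : ℂ).im * (z : ℂ).im = 1 := by
      rw [← Complex.normSq_apply]; exact z.normSq_coe
    have r : 1 - (z : ℂ).re ≠ 0 := fun e => h (Circle.ext (Complex.ext (by simp; linarith) (by
      simp; nlinarith)))
    have e : Q z ^ 2 + 1 = 2 / (1 - (z : ℂ).re) := by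
      unfold Q
      field_simp
      nlinarith
    refine ⟨Q z, Circle.ext (Complex.ext ?_ ?_)⟩
    · change (Q z ^ 2 - 1) / (Q z ^ 2 + 1) = _
      rw [show Q z ^ 2 - 1 = Q z ^ 2 + 1 - 2 by ring, e]
      field_simp
      ring
    · change -2 * Q z / (Q z ^ 2 + 1) = _
      rw [e]
      unfold Q
      field_simp

noncomputable def hh : OnePoint ℝ ≃ₜ Circle :=
  OnePoint.equivOfIsEmbeddingOfRangeEq 1 P emb_P range_P

theorem circ_cases (z : Circle) : z = 1 ∨ ∃ t, z = P t := by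
  by_cases h : z = 1
  · exact Or.inl h
  · have : z ∈ range P := by rw [range_P]; exact h
    obtain ⟨t, rfl⟩ := this
    exact Or.inr ⟨t, rfl⟩

noncomputable def phi (f : OI) : Circle ≃ₜ Circle :=
  hh.symm.trans (f.toHomeomorph.onePointCongr.trans hh)

theorem phi_P (f : OI) (t : ℝ) : phi f (P t) = P (f t) := by
  have : P t = hh (t : OnePoint ℝ) := rfl
  rw [this]
  simp only [phi, Homeomorph.trans_apply, Homeomorph.symm_apply_apply]
  rfl

theorem phi_one (f : OI) : phi f 1 = 1 := by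
  have : (1 : Circle) = hh OnePoint.infty := rfl
  rw [this]
  simp only [phi, Homeomorph.trans_apply, Homeomorph.symm_apply_apply]
  rfl

noncomputable def Phi : OI →* (Circle ≃ₜ Circle) where
  toFun := phi
  map_one' := Homeomorph.ext fun z => by
    rcases circ_cases z with rfl | ⟨t, rfl⟩
    · exact phi_one _
    · exact phi_P _ _
  map_mul' f g := Homeomorph.ext fun z => by
    rcases circ_cases z with rfl | ⟨t, rfl⟩
    · simp only [Homeomorph.mul_apply, phi_one]
    · simp only [Homeomorph.mul_apply, phi_P, RelIso.mul_apply]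

theorem Phi_inj : Function.Injective Phi := fun f g h => by
  ext t
  have : phi f (P t) = phi g (P t) := congrArg (fun φ : Circle ≃ₜ Circle => φ (P t)) h
  rw [phi_P, phi_P] at this
  exact emb_P.injective this

def D (a b c : ℂ) : ℝ := ((starRingEnd ℂ) (b - a) * (c - a)).im

theorem D_cyc (a b c : ℂ) : D a b c = D b c a := by
  simp [D]; ring

theorem D_self (a b : ℂ) : D a b b = 0 := by
  simp [D]; ring

theorem D_PPP (a b c : ℝ) : 0 < D (P a) (P b) (P c) ↔ 0 < (b - a) * (c - a) * (c - b) := by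
  have : D (P a) (P b) (P c) =
      (b - a) * (c - a) * (c - b) * (4 / ((a ^ 2 + 1) * (b ^ 2 + 1) * (c ^ 2 + 1))) := by
    simp [D, coe_P, Pc]
    field_simp
    ring
  rw [this, mul_pos_iff_of_pos_right (by positivity)]

theorem D_PP1 (a b : ℝ) : 0 < D (P a) (P b) (1 : Circle) ↔ a < b := by
  have : D (P a) (P b) (1 : Circle) = (b - a) * (4 / ((a ^ 2 + 1) * (b ^ 2 + 1))) := by
    simp [D, coe_P, Pc]
    field_simp
    ring
  rw [this, mul_pos_iff_of_pos_right (by positivity), sub_pos]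

theorem ratio (f : OI) (a b : ℝ) : ∃ l, 0 < l ∧ f b - f a = l * (b - a) := by
  rcases lt_trichotomy a b with h | rfl | h
  · exact ⟨(f b - f a) / (b - a), div_pos (sub_pos.2 (f.strictMono h)) (sub_pos.2 h), by
      field_simp [(sub_pos.2 h).ne']⟩
  · exact ⟨1, one_pos, by simp⟩
  · exact ⟨(f b - f a) / (b - a), div_pos_of_neg_of_neg (sub_neg.2 (f.strictMono h)) (sub_neg.2 h),
      by field_simp [(sub_neg.2 h).ne]⟩

theorem phi_ccw (f : OI) (a b c : Circle) (h : 0 < D a b c) :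
    0 < D (phi f a) (phi f b) (phi f c) := by
  rcases circ_cases a with rfl | ⟨a, rfl⟩ <;> rcases circ_cases b with rfl | ⟨b, rfl⟩ <;>
    rcases circ_cases c with rfl | ⟨c, rfl⟩ <;> simp only [phi_one, phi_P]
  · rw [D_self] at h; exact absurd h (lt_irrefl _)
  · rw [← D_cyc, D_self] at h; exact absurd h (lt_irrefl _)
  · rw [D_cyc, D_self] at h; exact absurd h (lt_irrefl _)
  · rw [D_cyc, D_PP1] at h ⊢; exact f.strictMono h
  · rw [D_self] at h; exact absurd h (lt_irrefl _)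
  · rw [← D_cyc, D_PP1] at h ⊢; exact f.strictMono h
  · rw [D_PP1] at h ⊢; exact f.strictMono h
  · rw [D_PPP] at h ⊢
    obtain ⟨l1, p1, e1⟩ := ratio f a b
    obtain ⟨l2, p2, e2⟩ := ratio f a c
    obtain ⟨l3, p3, e3⟩ := ratio f b c
    rw [e1, e2, e3]
    have := mul_pos (mul_pos (mul_pos p1 p2) p3) h
    linarith

theorem cyc_cases {a b c : ℝ} (h : 0 < (b - a) * (c - a) * (c - b)) :
    (a < b ∧ b < c) ∨ (b < c ∧ c < a) ∨ (c < a ∧ a < b) := by
  rcases lt_trichotomy a b with h1 | rfl | h1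
  · rcases lt_trichotomy b c with h2 | rfl | h2
    · exact Or.inl ⟨h1, h2⟩
    · simp at h
    · refine Or.inr (Or.inr ⟨?_, h1⟩)
      by_contra h3
      have := mul_nonpos_of_nonneg_of_nonpos (mul_nonneg (sub_pos.2 h1).le (sub_nonneg.2 (not_lt.1 h3)))
        (sub_neg.2 h2).le
      linarith
  · simp at h
  · refine Or.inr (Or.inl ?_)
    by_contra h3
    rcases le_or_gt c b with h4 | h4
    · have := mul_nonpos_of_nonneg_of_nonpos (mul_nonneg_of_nonpos_of_nonpos (sub_neg.2 h1).le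
        (show c - a ≤ 0 by linarith)) (sub_nonpos.2 h4)
      linarith
    · have h5 : a ≤ c := not_lt.1 fun h5 => h3 ⟨h4, h5⟩
      have := mul_nonpos_of_nonpos_of_nonneg (mul_nonpos_of_nonpos_of_nonneg (sub_neg.2 h1).le
        (sub_nonneg.2 h5)) (sub_pos.2 h4).le
      linarith

def Lam : Set (Circle × Circle) :=
  {w | w.1 ≠ w.2 ∧ ∃ p ∈ Lb, w = (P p.1, P p.2) ∨ w = (P p.2, P p.1)}

theorem mem_Lam {u v : ℝ} (h : L u v) : (P u, P v) ∈ Lam :=
  ⟨fun e => h.lt.ne (emb_P.injective e), (u, v), subset_closure h, Or.inl rfl⟩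

theorem Lam_symm {w : Circle × Circle} (h : w ∈ Lam) : w.swap ∈ Lam := by
  obtain ⟨h, p, hp, rfl | rfl⟩ := h
  · exact ⟨h.symm, p, hp, Or.inr rfl⟩
  · exact ⟨h.symm, p, hp, Or.inl rfl⟩

theorem Lam_unlinked {w w' : Circle × Circle} (h : w ∈ Lam) (h' : w' ∈ Lam) :
    ¬ (0 < D w.1 w'.1 w.2 ∧ 0 < D w.2 w'.2 w.1) := by
  obtain ⟨-, p, hp, h⟩ := h
  obtain ⟨-, q, hq, h'⟩ := h'
  have a1 := Lb_le hp
  have a2 := Lb_le hq
  have n1 := Lb_nc hp hq
  have n2 := Lb_nc hq hp
  rintro ⟨h1, h2⟩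
  rcases h with rfl | rfl <;> rcases h' with rfl | rfl <;>
  · rw [D_PPP] at h1 h2
    rcases cyc_cases h1 with ⟨b1, b2⟩ | ⟨b1, b2⟩ | ⟨b1, b2⟩ <;>
      rcases cyc_cases h2 with ⟨c1, c2⟩ | ⟨c1, c2⟩ | ⟨c1, c2⟩ <;>
      first
        | linarith
        | exact n1 ⟨by linarith, by linarith, by linarith⟩
        | exact n2 ⟨by linarith, by linarith, by linarith⟩

theorem Lam_inv {f : OI} (hf : f ∈ Good) {w : Circle × Circle} (h : w ∈ Lam) :
    (phi f w.1, phi f w.2) ∈ Lam := by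
  obtain ⟨h, p, hp, h'⟩ := h
  refine ⟨fun e => h ((phi f).injective e), (f p.1, f p.2), Lb_good hf hp, ?_⟩
  rcases h' with rfl | rfl
  · exact Or.inl (by simp only [phi_P])
  · exact Or.inr (by simp only [phi_P])

theorem closed_aux {w : Circle × Circle}
    (h : w ∈ closure ((fun p : ℝ × ℝ => (P p.1, P p.2)) '' Lb)) (hne : w.1 ≠ w.2) :
    w ∈ (fun p : ℝ × ℝ => (P p.1, P p.2)) '' Lb := by
  obtain ⟨s, hs, hl⟩ := mem_closure_iff_seq_limit.1 h
  choose p hp hps using hs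
  have l1 : Tendsto (fun n => P (p n).1) atTop (𝓝 w.1) := by
    have := (continuous_fst.tendsto w).comp hl
    refine this.congr fun n => ?_
    simp [← hps n]
  have l2 : Tendsto (fun n => P (p n).2) atTop (𝓝 w.2) := by
    have := (continuous_snd.tendsto w).comp hl
    refine this.congr fun n => ?_
    simp [← hps n]
  have fin : ∀ {a b : ℕ → ℝ} {t : ℝ} {z : Circle}, (∀ n, |b n| ≤ |a n| + 1) →
      Tendsto (fun n => P (a n)) atTop (𝓝 (P t)) → Tendsto (fun n => P (b n)) atTop (𝓝 z) →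
      z ≠ 1 := by
    intro a b t z hab h1 h2
    have h1 : Tendsto a atTop (𝓝 t) := emb_P.tendsto_nhds_iff.2 h1
    have ev : ∀ᶠ n in atTop, P (b n) ∈ P '' Icc (-(|t| + 2)) (|t| + 2) := by
      filter_upwards [h1.abs.eventually_lt_const (lt_add_one |t|)] with n hn
      exact ⟨b n, abs_le.1 (by linarith [hab n]), rfl⟩
    obtain ⟨u, -, rfl⟩ := (isCompact_Icc.image cont_P).isClosed.mem_of_tendsto h2 ev
    have : P u ∈ range P := ⟨u, rfl⟩
    rwa [range_P] at this
  have e1 : ∀ n, |(p n).2| ≤ |(p n).1| + 1 ∧ |(p n).1| ≤ |(p n).2| + 1 := fun n => by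
    have a := Lb_le (hp n)
    have b := Lb_esc (hp n)
    have := le_abs_self (p n).1
    have := le_abs_self (p n).2
    have := neg_abs_le (p n).1
    have := neg_abs_le (p n).2
    rcases b with b | b
    · exact ⟨abs_le.2 ⟨by linarith, by linarith⟩, abs_le.2 ⟨by linarith, by linarith⟩⟩
    · have := abs_le.1 b
      exact ⟨abs_le.2 ⟨by linarith, by linarith⟩, abs_le.2 ⟨by linarith, by linarith⟩⟩
  obtain ⟨a, b⟩ := w
  have key : ∀ u v, a = P u → b = P v → (a, b) ∈ (fun p : ℝ × ℝ => (P p.1, P p.2)) '' Lb := by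
    rintro u v rfl rfl
    refine ⟨(u, v), isClosed_closure.mem_of_tendsto (b := atTop) (f := p) ?_
      (Eventually.of_forall hp), rfl⟩
    exact (emb_P.tendsto_nhds_iff.2 l1).prodMk_nhds (emb_P.tendsto_nhds_iff.2 l2)
  rcases circ_cases a with rfl | ⟨u, rfl⟩ <;> rcases circ_cases b with rfl | ⟨v, rfl⟩
  · exact absurd rfl hne
  · exact absurd rfl (fin (fun n => (e1 n).2) l2 l1)
  · exact absurd rfl (fin (fun n => (e1 n).1) l1 l2)
  · exact key u v rfl rfl

theorem Lam_closed {w : Circle × Circle} (h : w ∈ closure Lam) (hne : w.1 ≠ w.2) : w ∈ Lam := by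
  have : Lam ⊆ (fun p : ℝ × ℝ => (P p.1, P p.2)) '' Lb ∪
      Prod.swap ⁻¹' ((fun p : ℝ × ℝ => (P p.1, P p.2)) '' Lb) := by
    rintro _ ⟨-, p, hp, rfl | rfl⟩
    · exact Or.inl ⟨p, hp, rfl⟩
    · exact Or.inr ⟨p, hp, rfl⟩
  have h := closure_mono this h
  rw [closure_union] at h
  rcases h with h | h
  · obtain ⟨p, hp, rfl⟩ := closed_aux h hne
    exact ⟨hne, p, hp, Or.inl rfl⟩
  · obtain ⟨p, hp, e⟩ := closed_aux (continuous_swap.closure_preimage_subset _ h) hne.symm
    exact ⟨hne, p, hp, Or.inr (by rw [← Prod.swap_swap w, ← e]; rfl)⟩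

def ell (u v : ℝ) (z : ℂ) : ℝ := u * v * (1 - z.re) + (u + v) * z.im + (1 + z.re)

theorem ell_P (u v t : ℝ) : ell u v (Pc t) = (t - u) * (t - v) * (2 / (t ^ 2 + 1)) := by
  simp only [ell, Pc]
  field_simp
  ring

theorem ell_comb (u v a b : ℝ) (z w : ℂ) (h : a + b = 1) :
    ell u v (a • z + b • w) = a * ell u v z + b * ell u v w := by
  simp only [ell, Complex.add_re, Complex.add_im, Complex.smul_re, Complex.smul_im, smul_eq_mul]
  rw [show b = 1 - a by linarith]
  ring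

theorem cont_ell (u v : ℝ) : Continuous (ell u v) := by
  unfold ell; fun_prop

theorem ball_B {z : ℂ} (hz : z ∈ ball (0 : ℂ) 1) :
    ∃ A c x : ℝ, 0 < A ∧ 0 < c ∧ ∀ u v, ell u v z = A * B c x u v := by
  have n : z.re * z.re + z.im * z.im < 1 := by
    rw [← Complex.normSq_apply, Complex.normSq_eq_norm_sq]
    have := mem_ball_zero_iff.1 hz
    nlinarith [norm_nonneg z]
  have a : 0 < 1 - z.re := by nlinarith
  refine ⟨1 - z.re, (1 - z.re * z.re - z.im * z.im) / (1 - z.re) ^ 2, -z.im / (1 - z.re), a,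
    div_pos (by linarith) (by positivity), fun u v => ?_⟩
  unfold ell B
  field_simp
  ring

theorem bary {p q r : ℝ} (h1 : p < q) (h2 : q < r) (z : ℂ) :
    ∃ k1 k2 k3 : ℝ, 0 < k1 ∧ 0 < k2 ∧ 0 < k3 ∧
      k1 * ell q r z + k2 * -ell p r z + k3 * ell p q z = 1 ∧
      (k1 * ell q r z) • Pc p + (k2 * -ell p r z) • Pc q + (k3 * ell p q z) • Pc r = z := by
  have a : 0 < q - p := by linarith
  have b : 0 < r - q := by linarith
  have c : 0 < r - p := by linarith
  refine ⟨(p ^ 2 + 1) / (2 * (q - p) * (r - p)), (q ^ 2 + 1) / (2 * (q - p) * (r - q)),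
    (r ^ 2 + 1) / (2 * (r - p) * (r - q)), by positivity, by positivity, by positivity, ?_, ?_⟩
  · unfold ell
    field_simp
    ring
  · apply Complex.ext <;> simp only [ell, Pc, Complex.add_re, Complex.add_im, Complex.smul_re,
      Complex.smul_im, smul_eq_mul] <;> field_simp <;> ring

theorem seg_ell {u v : ℝ} {z : ℂ} (h : z ∈ segment ℝ (Pc u) (Pc v)) : ell u v z = 0 := by
  obtain ⟨a, b, -, -, h, rfl⟩ := h
  rw [ell_comb _ _ _ _ _ _ h, ell_P, ell_P]
  ring

theorem ell_seg {u v : ℝ} (huv : u < v) {z : ℂ} (hz : z ∈ ball (0 : ℂ) 1) (h : ell u v z = 0) :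
    z ∈ segment ℝ (Pc u) (Pc v) := by
  obtain ⟨A, c, x, hA, hc, e⟩ := ball_B hz
  obtain ⟨k1, k2, k3, p1, p2, -, s, hz⟩ := bary huv (lt_add_one v) z
  rw [h, mul_zero, add_zero] at s
  rw [h, mul_zero, zero_smul, add_zero] at hz
  have b0 : B c x u v = 0 := by
    rw [e] at h
    exact (mul_eq_zero.1 h).resolve_left hA.ne'
  unfold B at b0
  have x1 : u < x := by nlinarith
  have x2 : x < v := by nlinarith
  refine ⟨_, _, (mul_pos p1 ?_).le, (mul_pos p2 ?_).le, s, hz⟩
  · rw [e]; refine mul_pos hA ?_; unfold B; nlinarith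
  · rw [e, neg_pos]; refine mul_neg_of_pos_of_neg hA ?_; unfold B; nlinarith

def U : Set ℂ := ⋃ w ∈ Lam, segment ℝ (w.1 : ℂ) w.2

theorem mem_U {z : ℂ} (h : z ∈ U) : ∃ p ∈ Lb, p.1 < p.2 ∧ z ∈ segment ℝ (Pc p.1) (Pc p.2) := by
  simp only [U, mem_iUnion] at h
  obtain ⟨w, ⟨hne, p, hp, h⟩, hz⟩ := h
  have : p.1 < p.2 := lt_of_le_of_ne (Lb_le hp) fun e => hne (by
    rcases h with rfl | rfl <;> simp [e])
  rcases h with rfl | rfl
  · exact ⟨p, hp, this, hz⟩
  · exact ⟨p, hp, this, by rw [segment_symm]; exact hz⟩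

theorem seg_U {u v : ℝ} (h : L u v) : segment ℝ (Pc u) (Pc v) ⊆ U :=
  subset_biUnion_of_mem (u := fun w : Circle × Circle => segment ℝ (w.1 : ℂ) w.2) (mem_Lam h)

def O (p q r : ℝ) : Set ℂ := {z | ell p r z < 0 ∧ 0 < ell p q z ∧ 0 < ell q r z}
def T (p q r : ℝ) : Set ℂ := {z | ell p r z ≤ 0 ∧ 0 ≤ ell p q z ∧ 0 ≤ ell q r z}

theorem O_open (p q r : ℝ) : IsOpen (O p q r) :=
  (isOpen_lt (cont_ell _ _) continuous_const).inter
    ((isOpen_lt continuous_const (cont_ell _ _)).inter (isOpen_lt continuous_const (cont_ell _ _)))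

theorem T_closed (p q r : ℝ) : IsClosed (T p q r) :=
  (isClosed_le (cont_ell _ _) continuous_const).inter
    ((isClosed_le continuous_const (cont_ell _ _)).inter
      (isClosed_le continuous_const (cont_ell _ _)))

theorem mix {p q r : ℝ} {z w : ℂ} (hz : z ∈ T p q r) (hw : w ∈ O p q r) {a b : ℝ} (ha : 0 ≤ a)
    (hb : 0 < b) (h : a + b = 1) : a • z + b • w ∈ O p q r := by
  obtain ⟨z1, z2, z3⟩ := hz
  obtain ⟨w1, w2, w3⟩ := hw
  refine ⟨?_, ?_, ?_⟩ <;> rw [ell_comb _ _ _ _ _ _ h] <;> nlinarith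

theorem O_sub (p q r : ℝ) : O p q r ⊆ T p q r := fun _ h => ⟨h.1.le, h.2.1.le, h.2.2.le⟩

theorem O_convex (p q r : ℝ) : Convex ℝ (O p q r) := by
  intro z hz w hw a b ha hb h
  rcases hb.eq_or_lt with rfl | hb
  · obtain rfl : a = 1 := by linarith
    simpa using hz
  · exact mix (O_sub _ _ _ hz) hw ha hb h

theorem closure_O {p q r : ℝ} {w : ℂ} (hw : w ∈ O p q r) : closure (O p q r) = T p q r := by
  refine ((T_closed p q r).closure_subset_iff.2 (O_sub p q r)).antisymm fun z hz => ?_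
  have : openSegment ℝ z w ⊆ O p q r := by
    rintro _ ⟨a, b, ha, hb, h, rfl⟩
    exact mix hz hw ha.le hb h
  exact closure_mono this (segment_subset_closure_openSegment (left_mem_segment ℝ z w))

theorem T_eq {p q r : ℝ} (h1 : p < q) (h2 : q < r) :
    T p q r = convexHull ℝ {Pc p, Pc q, Pc r} := by
  apply Subset.antisymm
  · intro z hz
    obtain ⟨k1, k2, k3, p1, p2, p3, s, e⟩ := bary h1 h2 z
    have := (convex_convexHull ℝ ({Pc p, Pc q, Pc r} : Set ℂ)).sum_mem (t := Finset.univ)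
      (w := ![k1 * ell q r z, k2 * -ell p r z, k3 * ell p q z]) (z := ![Pc p, Pc q, Pc r])
      (fun i _ => by
        fin_cases i
        · exact mul_nonneg p1.le hz.2.2
        · exact mul_nonneg p2.le (neg_nonneg.2 hz.1)
        · exact mul_nonneg p3.le hz.2.1)
      (by rw [Fin.sum_univ_three]; exact s)
      (fun i _ => subset_convexHull ℝ _ (by fin_cases i <;> simp))
    rw [Fin.sum_univ_three] at this
    rw [← e]
    exact this
  · refine convexHull_min ?_ ?_
    · have k : ∀ t : ℝ, 0 < 2 / (t ^ 2 + 1) := fun t => by positivity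
      have a : 0 < q - p := by linarith
      have b : 0 < r - q := by linarith
      rintro z (rfl | rfl | rfl) <;> refine ⟨?_, ?_, ?_⟩ <;> rw [ell_P]
      · simp
      · simp
      · exact mul_nonneg (by nlinarith) (k _).le
      · exact mul_nonpos_of_nonpos_of_nonneg (by nlinarith) (k _).le
      · simp
      · simp
      · simp
      · exact mul_nonneg (by nlinarith) (k _).le
      · simp
    · rintro z ⟨z1, z2, z3⟩ w ⟨w1, w2, w3⟩ a b ha hb h
      refine ⟨?_, ?_, ?_⟩ <;> rw [ell_comb _ _ _ _ _ _ h] <;> nlinarith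

theorem O_ball {p q r : ℝ} (h1 : p < q) (h2 : q < r) : O p q r ⊆ ball 0 1 := by
  rw [← interior_closedBall (0 : ℂ) one_ne_zero]
  refine interior_maximal ((O_sub p q r).trans ?_) (O_open p q r)
  rw [T_eq h1 h2]
  refine convexHull_min ?_ (convex_closedBall _ _)
  rintro z (rfl | rfl | rfl) <;> simp [norm_Pc]

theorem O_U {p q r : ℝ} (h1 : p < q) (h2 : q < r) (l1 : L p q) (l2 : L q r) (l3 : L p r) {z : ℂ}
    (hz : z ∈ O p q r) : z ∉ U := by
  intro h
  obtain ⟨⟨u, v⟩, hp, huv, hs⟩ := mem_U h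
  obtain ⟨A, c, x, hA, hc, e⟩ := ball_B (O_ball h1 h2 hz)
  have b0 := seg_ell hs
  obtain ⟨b1, b2, b3⟩ := hz
  rw [e] at b0 b1 b2 b3
  have b0 := (mul_eq_zero.1 b0).resolve_left hA.ne'
  have b1 := neg_of_mul_neg_right b1 hA.le
  have b2 := (mul_pos_iff_of_pos_left hA).1 b2
  have b3 := (mul_pos_iff_of_pos_left hA).1 b3
  have m1 : (p, q) ∈ Lb := subset_closure l1
  have m2 : (q, r) ∈ Lb := subset_closure l2
  have m3 : (p, r) ∈ Lb := subset_closure l3
  have n1 := Lb_nc m1 hp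
  have n2 := Lb_nc m2 hp
  have n3 := Lb_nc m3 hp
  have n4 := Lb_nc hp m2
  have n5 := Lb_nc hp m3
  have n6 := Lb_nc hp m1
  unfold B at b0 b1 b2 b3
  dsimp only at *
  have x1 : u < x := by nlinarith
  have x2 : x < v := by nlinarith
  have x3 : p < x := by nlinarith
  have x4 : x < r := by nlinarith
  have mono : ∀ a b a' b' : ℝ, a' ≤ a → a < x → x < b → b ≤ b' →
      (a' - x) * (b' - x) ≤ (a - x) * (b - x) := fun a b a' b' _ _ _ _ => by nlinarith
  rcases le_or_gt u p with c1 | c1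
  · rcases le_or_gt r v with c2 | c2
    · linarith [mono p r u v c1 x3 x4 c2]
    · have : u = p := le_antisymm c1 (not_lt.1 fun c3 => n5 ⟨c3, by linarith, c2⟩)
      subst this
      have : v ≤ q := not_lt.1 fun c3 => n4 ⟨h1, c3, c2⟩
      linarith [mono u v u q le_rfl x1 x2 this]
  · have c2 : v ≤ r := not_lt.1 fun c3 => n3 ⟨c1, by linarith, c3⟩
    rcases le_or_gt q u with c3 | c3
    · linarith [mono u v q r c3 x1 x2 c2]
    · have : v ≤ q := not_lt.1 fun c4 => n1 ⟨c1, c3, c4⟩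
      linarith [mono u v p q c1.le x1 x2 this]

theorem cover {z : ℂ} (hz : z ∈ ball (0 : ℂ) 1) : (∃ u v, L u v ∧ ell u v z = 0) ∨
    ∃ p q r, p < q ∧ q < r ∧ L p q ∧ L q r ∧ L p r ∧ z ∈ O p q r := by
  obtain ⟨A, c, x, hA, hc, e⟩ := ball_B hz
  rcases covL hc x with ⟨u, v, h1, h2⟩ | ⟨p, q, r, a1, a2, a3, a4, a5, a6, a7, a8⟩
  · exact Or.inl ⟨u, v, h1, by rw [e, h2, mul_zero]⟩
  · exact Or.inr ⟨p, q, r, a1, a2, a3, a4, a5, by rw [e]; exact mul_neg_of_pos_of_neg hA a6,
      by rw [e]; exact mul_pos hA a7, by rw [e]; exact mul_pos hA a8⟩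

theorem gap_eq {z : ℂ} (hz : z ∈ ball (0 : ℂ) 1 \ U) : ∃ p q r : ℝ, p < q ∧ q < r ∧
    closure (connectedComponentIn (ball (0 : ℂ) 1 \ U) z) = convexHull ℝ {Pc p, Pc q, Pc r} := by
  rcases cover hz.1 with ⟨u, v, h1, h2⟩ | ⟨p, q, r, a1, a2, a3, a4, a5, ho⟩
  · exact absurd (seg_U h1 (ell_seg h1.lt hz.1 h2)) hz.2
  refine ⟨p, q, r, a1, a2, ?_⟩
  rw [← T_eq a1 a2, ← closure_O ho]
  congr 1
  apply Subset.antisymm
  · refine IsPreconnected.subset_left_of_subset_union (O_open p q r) (T_closed p q r).isOpen_compl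
      (disjoint_compl_right_iff_subset.2 (O_sub p q r)) (fun w hw => ?_)
      ⟨z, mem_connectedComponentIn hz, ho⟩ isPreconnected_connectedComponentIn
    obtain ⟨w1, w2⟩ := connectedComponentIn_subset _ _ hw
    by_cases ht : w ∈ T p q r
    · have k : ∀ u v, L u v → ell u v w ≠ 0 := fun u v h e => w2 (seg_U h (ell_seg h.lt w1 e))
      exact Or.inl ⟨ht.1.lt_of_ne (k _ _ a5), ht.2.1.lt_of_ne (k _ _ a3).symm,
        ht.2.2.lt_of_ne (k _ _ a4).symm⟩
    · exact Or.inr ht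
  · exact (O_convex p q r).isPreconnected.subset_connectedComponentIn ho
      fun w hw => ⟨O_ball a1 a2 hw, O_U a1 a2 a3 a4 a5 hw⟩

theorem line_null (u v : ℝ) : volume {z : ℂ | ell u v z = 0} = 0 := by
  let s : AffineSubspace ℝ ℂ :=
    { carrier := {z : ℂ | ell u v z = 0}
      smul_vsub_vadd_mem' := by
        intro c a b d ha hb hd
        simp only [mem_setOf_eq, ell, vsub_eq_sub, vadd_eq_add, Complex.add_re, Complex.add_im,
          Complex.smul_re, Complex.smul_im, Complex.sub_re, Complex.sub_im, smul_eq_mul] at *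
        linear_combination c * ha - c * hb + hd }
  refine Measure.addHaar_affineSubspace volume s fun h => ?_
  have : (1 : ℂ) ∈ s := h ▸ AffineSubspace.mem_top _ _ _
  have : ell u v 1 = 0 := this
  simp [ell] at this

theorem interior_U : interior U = ∅ := by
  by_contra hne
  have pos := isOpen_interior.measure_pos volume (nonempty_iff_ne_empty.2 hne)
  have hb : interior U ⊆ ball 0 1 := by
    rw [← interior_closedBall (0 : ℂ) one_ne_zero]
    refine interior_mono fun z hz => ?_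
    obtain ⟨p, -, -, hs⟩ := mem_U hz
    exact (convex_closedBall (0 : ℂ) 1).segment_subset (by simp [norm_Pc]) (by simp [norm_Pc]) hs
  have : interior U ⊆ ⋃ w : ℚ × ℚ, {z : ℂ | ell w.1 w.2 z = 0} := fun z hz => by
    rcases cover (hb hz) with ⟨u, v, h1, h2⟩ | ⟨p, q, r, a1, a2, a3, a4, a5, ho⟩
    · obtain ⟨a, b, rfl, rfl⟩ := h1.rat
      exact mem_iUnion.2 ⟨(a, b), h2⟩
    · exact absurd (interior_subset hz) (O_U a1 a2 a3 a4 a5 ho)
  exact pos.ne' (measure_mono_null this (measure_iUnion_null fun w => line_null _ _))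

end Pool.Agent.H.MP_939d63_gt
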